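import Pool.Agent.Helper36.KZ.Play

/-!
Project KZ (MP_0aa406_nt), module KZ-6: reachable sets and the minimal remainder. Statements of the
spec of helper77, in his namespace.
-/

set_option autoImplicit false

namespace Pool.Agent.Helper77.KZ

open Finset
open scoped Pointwise

variable {n : ℕ}

private theorem rest_subset_of (g : ZMod n → ℤ) (U : Finset (ZMod n)) (s : ZMod n) : rest g U s ⊆ U :=
  Finset.filter_subset _ _

private theorem rest_ssubset {g : ZMod n → ℤ} {U : Finset (ZMod n)} {s : ZMod n} (h : Meets g U s) :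
    rest g U s ⊂ U := by
  obtain ⟨l, hl, hgl⟩ := h
  refine (Finset.ssubset_iff_of_subset (rest_subset_of g U s)).mpr ⟨l, hl, ?_⟩
  intro hmem
  exact hgl (Finset.mem_filter.mp hmem).2

theorem reach_subset {g : ZMod n → ℤ} {Y X : Finset (ZMod n)} (h : Reach g Y X) : X ⊂ Y := by
  induction h with
  | first j hj => exact rest_ssubset hj
  | next X k _ _ _ ih => exact lt_of_le_of_lt (rest_subset_of g X k) ih

private theorem reach_transfer {g : ZMod n → ℤ} {Y : Finset (ZMod n)} (hY : Stuck g Y)
    {X : Finset (ZMod n)} (hX : Reach g Y X) : ∀ F : ℤ, Val g X F → Val g Y (F - 1) := by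
  induction hX with
  | first j hj =>
    intro F hF
    have h1 := Val.step j hF
    rw [hY j hj] at h1
    exact h1.mono (by norm_num)
  | next X k _ _ hE ih =>
    intro F hF
    have h1 := Val.step k hF
    have h2 : |EE g X k - 1| = 1 := by
      rcases hE with h | h
      · rw [h]; norm_num
      · rw [h]; norm_num
    rw [h2] at h1
    exact ih F (h1.mono (by linarith))

theorem reach_val {g : ZMod n → ℤ} {Y : Finset (ZMod n)} (hY : Stuck g Y)
    (hsub : ∀ X, X ⊂ Y → Val g X 0) (hbad : ¬ Val g Y 0) {X : Finset (ZMod n)} (hX : Reach g Y X)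
    {k : ZMod n} (_hk : Meets g X k) : EE g X k = 0 ∨ EE g X k = 1 ∨ EE g X k = 2 := by
  by_contra hcon
  push Not at hcon
  obtain ⟨h0, h1, h2⟩ := hcon
  apply hbad
  have h3 : Val g (rest g X k) 0 :=
    hsub _ (lt_of_le_of_lt (rest_subset_of g X k) (reach_subset hX))
  have h4 := Val.step k h3
  have h5 : 2 ≤ |EE g X k - 1| := by
    rcases abs_choice (EE g X k - 1) with h | h
    · rw [h]
      have := abs_nonneg (EE g X k - 1)
      omega
    · rw [h]
      have := abs_nonneg (EE g X k - 1)
      omega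
  have h6 : Val g X 1 := h4.mono (by linarith)
  have h7 := reach_transfer hY hX 1 h6
  exact h7.mono (by norm_num)

private theorem cd_local [NeZero n] (hn : n ≠ 1) {A B : Finset (ZMod n)} (hA : A.Nonempty)
    (hB : B.Nonempty) (h : (A + B).card < n.minFac) : A.card + B.card ≤ (A + B).card + 1 := by
  have h1 := cauchy_davenport_minOrder_add hA hB
  rw [ZMod.minOrder (NeZero.ne n) hn] at h1
  rcases min_le_iff.mp h1 with h2 | h2
  · have h3 : n.minFac ≤ (A + B).card := by exact_mod_cast h2
    omega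
  · have h3 : A.card + B.card - 1 ≤ (A + B).card := by exact_mod_cast h2
    omega

private theorem TT_card_ne_two [NeZero n] {g : ZMod n → ℤ} (hg : IsSign g) (he : ∑ i, g i = 2)
    (hneg : ∃ i, g i = -1) : (TT g).card ≠ 2 := by
  intro hτ
  obtain ⟨i₀, hi₀⟩ := hneg
  have h1 : ∑ i ∈ TT g, g i = 2 := by
    rw [← he]
    apply Finset.sum_subset (Finset.subset_univ _)
    intro x _ hx
    unfold TT at hx
    simpa using hx
  have h2 : ∑ i ∈ TT g, (1 - g i) = 0 := by
    rw [Finset.sum_sub_distrib, h1]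
    simp [hτ]
  have h3 : ∀ i ∈ TT g, 0 ≤ 1 - g i := by
    intro i _
    rcases hg i with h | h | h <;> rw [h] <;> norm_num
  have h4 := (Finset.sum_eq_zero_iff_of_nonneg h3).mp h2 i₀ (by
    unfold TT
    simp [hi₀])
  rw [hi₀] at h4
  norm_num at h4

theorem min_remainder [NeZero n] (hn : n ≠ 1) {g : ZMod n → ℤ} (hg : IsSign g)
    (he : ∑ i, g i = 2) (hneg : ∃ i, g i = -1) {Y : Finset (ZMod n)} (hY : Atom g Y)
    (hYT : (Y + TT g).card = 2 * Y.card) (hsmall : (Y + TT g).card < n.minFac)
    (hr : ∀ X, Reach g Y X → ∀ k, Meets g X k → EE g X k = 0 ∨ EE g X k = 1 ∨ EE g X k = 2) :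
    ∃ X, X ⊂ Y ∧ X.Nonempty ∧
      (∀ k, Meets g X k → EE g X k = 0 ∨ EE g X k = 1 ∨ EE g X k = 2) ∧
      (∀ k, Meets g X k → EE g X k ≠ 1 → ∀ x ∈ X, g (k - x) ≠ 0) ∧
      (∃ k, Meets g X k ∧ EE g X k ≠ 1) := by
  obtain ⟨hYne, hYst, hYat⟩ := hY
  have hTne : (TT g).Nonempty := by
    obtain ⟨i, hi⟩ := hneg
    exact ⟨i, by unfold TT; simp [hi]⟩
  -- a nonempty reachable set
  have hex : ∃ X : Finset (ZMod n), Reach g Y X ∧ X.Nonempty := by
    by_contra hcon
    push Not at hcon
    have hcov : ∀ j, Meets g Y j → ∀ y ∈ Y, g (j - y) ≠ 0 := by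
      intro j hj y hy h0
      have h1 := hcon _ (Reach.first j hj)
      have h2 : y ∈ rest g Y j := Finset.mem_filter.mpr ⟨hy, h0⟩
      rw [h1] at h2
      simp at h2
    obtain ⟨y₀, hy₀⟩ := hYne
    have h1 : Y + TT g ⊆ {y₀} + TT g := by
      intro s hs
      obtain ⟨y, hy, t, ht, rfl⟩ := Finset.mem_add.mp hs
      have h2 : g (y + t - y) ≠ 0 := by
        rw [add_sub_cancel_left]
        unfold TT at ht
        simpa using ht
      have h3 := hcov (y + t) ⟨y, hy, h2⟩ y₀ hy₀
      refine Finset.mem_add.mpr ⟨y₀, by simp, y + t - y₀, ?_, by ring⟩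
      unfold TT
      simpa using h3
    have h2 : (Y + TT g).card ≤ (TT g).card := by
      calc (Y + TT g).card ≤ ({y₀} + TT g).card := Finset.card_le_card h1
        _ = (TT g).card := by
          rw [Finset.singleton_add]
          exact Finset.card_image_of_injective _ (add_right_injective y₀)
    have h3 := cd_local hn ⟨y₀, hy₀⟩ hTne hsmall
    have h4 : 0 < Y.card := Finset.card_pos.mpr ⟨y₀, hy₀⟩
    have h5 : (TT g).card ≤ (Y + TT g).card := by
      have h6 : {y₀} + TT g ⊆ Y + TT g :=
        Finset.add_subset_add_right (Finset.singleton_subset_iff.mpr hy₀)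
      calc (TT g).card = ({y₀} + TT g).card := by
            rw [Finset.singleton_add]
            exact (Finset.card_image_of_injective _ (add_right_injective y₀)).symm
        _ ≤ (Y + TT g).card := Finset.card_le_card h6
    exact TT_card_ne_two hg he hneg (by omega)
  obtain ⟨X, hX, hmin⟩ : ∃ X : Finset (ZMod n), (Reach g Y X ∧ X.Nonempty) ∧
      ∀ X' : Finset (ZMod n), (Reach g Y X' ∧ X'.Nonempty) → X.card ≤ X'.card := by
    obtain ⟨X, hX, hmin⟩ := WellFounded.has_min
      (measure (fun X : Finset (ZMod n) => X.card)).wf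
      {X : Finset (ZMod n) | Reach g Y X ∧ X.Nonempty} hex
    refine ⟨X, hX, fun X' hX' => ?_⟩
    have := hmin X' hX'
    by_contra h
    push Not at h
    exact this h
  obtain ⟨hXr, hXne⟩ := hX
  have hXY := reach_subset hXr
  refine ⟨X, hXY, hXne, hr X hXr, ?_, ?_⟩
  · intro k hk hk1 x hx h0
    have h1 : EE g X k = 0 ∨ EE g X k = 2 := by
      rcases hr X hXr k hk with h | h | h
      · exact Or.inl h
      · exact absurd h hk1
      · exact Or.inr h
    have h2 := Reach.next X k hXr hk h1
    have h3 : x ∈ rest g X k := Finset.mem_filter.mpr ⟨hx, h0⟩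
    have h4 := hmin _ ⟨h2, ⟨x, h3⟩⟩
    have h5 := Finset.card_lt_card (rest_ssubset hk)
    omega
  · by_contra hcon
    push Not at hcon
    have hst : Stuck g X := fun s hs => hcon s hs
    have h1 := hYat X hXY.1 hXne hst
    exact hXY.ne h1

end Pool.Agent.Helper77.KZ
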